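import Pool.Agent.K3h75.TO.StmA

/-!
# Brick ORB of helper75 (tori over number fields)
-/

set_option autoImplicit false

namespace Pool.Agent.K3h44.Orb

open Module Pool.Agent.K3h75.TO

section basic

variable {Λ : Type} [AddCommGroup Λ] {n : ℕ} (b : Basis (Fin n) ℤ Λ) {I : Set (Fin n)}

lemma sp_zero : Sp b I (0 : Λ) := by intro i _; simp

lemma sp_add {a c : Λ} (ha : Sp b I a) (hc : Sp b I c) : Sp b I (a + c) := by
  intro i hi; simp [ha i hi, hc i hi]

lemma sp_neg {a : Λ} (ha : Sp b I a) : Sp b I (-a) := by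
  intro i hi; simp [ha i hi]

lemma sp_sub {a c : Λ} (ha : Sp b I a) (hc : Sp b I c) : Sp b I (a - c) := by
  intro i hi; simp [ha i hi, hc i hi]

lemma sp_zsmul {a : Λ} (ha : Sp b I a) (z : ℤ) : Sp b I (z • a) := by
  intro i hi; simp [ha i hi]

lemma nn_of_sp {a : Λ} (ha : Sp b I a) : NN b I a := by
  intro i hi; simp [ha i hi]

lemma nn_add {a c : Λ} (ha : NN b I a) (hc : NN b I c) : NN b I (a + c) := by
  intro i hi
  have h1 := ha i hi
  have h2 := hc i hi
  simp only [map_add, Finsupp.add_apply]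
  omega

lemma sp_basis {i : Fin n} (hi : i ∈ I) : Sp b I (b i) := by
  intro j hj
  rw [Basis.repr_self, Finsupp.single_apply, if_neg]
  rintro rfl
  exact hj hi

lemma nn_basis (i : Fin n) : NN b I (b i) := by
  intro j hj
  rw [Basis.repr_self, Finsupp.single_apply]
  split_ifs <;> norm_num

lemma repr_map (σ : Λ →+ Λ) (a : Λ) (j : Fin n) :
    b.repr (σ a) j = ∑ i, b.repr a i * b.repr (σ (b i)) j := by
  have h : σ a = ∑ i, b.repr a i • σ (b i) := by
    conv_lhs => rw [← b.sum_repr a]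
    rw [map_sum]
    exact Finset.sum_congr rfl fun i _ => map_zsmul σ _ _
  rw [h, map_sum, Finsupp.finset_sum_apply]
  refine Finset.sum_congr rfl fun i _ => ?_
  simp

lemma sp_iter {τ : Λ →+ Λ} (hτ : ∀ a, Sp b I a → Sp b I (τ a)) (k : ℕ) :
    ∀ a, Sp b I a → Sp b I (τ^[k] a) := by
  induction k with
  | zero => intro a ha; simpa using ha
  | succ k ih =>
    intro a ha
    rw [Function.iterate_succ_apply]
    exact ih _ (hτ a ha)

end basic

section perm

variable {Λ : Type} [AddCommGroup Λ] {n : ℕ} (b : Basis (Fin n) ℤ Λ) {I : Set (Fin n)}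
  {τ : Λ →+ Λ}

open Classical in
/-- the sum of the coordinates outside `I` -/
noncomputable def SS (I : Set (Fin n)) (a : Λ) : ℤ := ∑ i, if i ∈ I then 0 else b.repr a i

lemma nn_map (hτ : ∀ a, Sp b I a → Sp b I (τ a)) (hN : ∀ i, i ∉ I → NN b I (τ (b i)))
    {a : Λ} (ha : NN b I a) : NN b I (τ a) := by
  intro j hj
  rw [repr_map]
  refine Finset.sum_nonneg fun i _ => ?_
  by_cases hi : i ∈ I
  · rw [hτ _ (sp_basis b hi) j hj]; simp
  · exact mul_nonneg (ha i hi) (hN i hi j hj)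

lemma nn_iter (hτ : ∀ a, Sp b I a → Sp b I (τ a)) (hN : ∀ i, i ∉ I → NN b I (τ (b i))) (k : ℕ) :
    ∀ a : Λ, NN b I a → NN b I (τ^[k] a) := by
  induction k with
  | zero => intro a ha; simpa using ha
  | succ k ih =>
    intro a ha
    rw [Function.iterate_succ_apply]
    exact ih _ (nn_map b hτ hN ha)

lemma SS_basis {i : Fin n} (hi : i ∉ I) : SS b I (b i) = 1 := by
  classical
  unfold SS
  rw [Finset.sum_eq_single i]
  · simp [hi]
  · intro j _ hj
    simp [Ne.symm hj]
  · simp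

lemma one_le_SS {p : ℕ} (hp : 0 < p) (hτp : ∀ a, τ^[p] a = a)
    (hτ : ∀ a, Sp b I a → Sp b I (τ a)) (hN : ∀ i, i ∉ I → NN b I (τ (b i)))
    {i : Fin n} (hi : i ∉ I) : 1 ≤ SS b I (τ (b i)) := by
  classical
  by_contra hcon
  have h0 : SS b I (τ (b i)) = 0 := by
    have h1 : 0 ≤ SS b I (τ (b i)) := by
      unfold SS
      refine Finset.sum_nonneg fun j _ => ?_
      split_ifs with hj
      · exact le_rfl
      · exact hN i hi j hj
    omega
  have h2 : Sp b I (τ (b i)) := by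
    intro j hj
    unfold SS at h0
    rw [Finset.sum_eq_zero_iff_of_nonneg] at h0
    · have := h0 j (Finset.mem_univ _)
      rwa [if_neg hj] at this
    · intro j _
      split_ifs with hj
      · exact le_rfl
      · exact hN i hi j hj
  have h3 : Sp b I (τ^[p - 1] (τ (b i))) := sp_iter b hτ _ _ h2
  rw [← Function.iterate_succ_apply, Nat.succ_eq_add_one, Nat.sub_add_cancel hp, hτp] at h3
  have := h3 i hi
  simp at this

lemma SS_mono {p : ℕ} (hp : 0 < p) (hτp : ∀ a, τ^[p] a = a)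
    (hτ : ∀ a, Sp b I a → Sp b I (τ a)) (hN : ∀ i, i ∉ I → NN b I (τ (b i)))
    {a : Λ} (ha : NN b I a) : SS b I a ≤ SS b I (τ a) := by
  classical
  have h1 : SS b I (τ a) = ∑ i, b.repr a i * SS b I (τ (b i)) := by
    unfold SS
    simp_rw [Finset.mul_sum]
    rw [Finset.sum_comm]
    refine Finset.sum_congr rfl fun j _ => ?_
    split_ifs with hj
    · simp
    · exact repr_map b τ a j
  rw [h1]
  unfold SS
  refine Finset.sum_le_sum fun i _ => ?_
  split_ifs with hi
  · have : SS b I (τ (b i)) = 0 := by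
      unfold SS
      refine Finset.sum_eq_zero fun j _ => ?_
      split_ifs with hj
      · rfl
      · exact hτ _ (sp_basis b hi) j hj
    unfold SS at this
    rw [this]; simp
  · have h2 := one_le_SS b hp hτp hτ hN hi
    have h3 := ha i hi
    unfold SS at h2
    nlinarith

lemma SS_iter {p : ℕ} (hp : 0 < p) (hτp : ∀ a, τ^[p] a = a)
    (hτ : ∀ a, Sp b I a → Sp b I (τ a)) (hN : ∀ i, i ∉ I → NN b I (τ (b i))) (k : ℕ) :
    ∀ a : Λ, NN b I a → SS b I a ≤ SS b I (τ^[k] a) := by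
  induction k with
  | zero => intro a _; simp
  | succ k ih =>
    intro a ha
    rw [Function.iterate_succ_apply]
    exact (SS_mono b hp hτp hτ hN ha).trans (ih _ (nn_map b hτ hN ha))

lemma exists_phi {p : ℕ} (hp : 0 < p) (hτp : ∀ a, τ^[p] a = a)
    (hτ : ∀ a, Sp b I a → Sp b I (τ a)) (hN : ∀ i, i ∉ I → NN b I (τ (b i)))
    (i : Fin n) (hi : i ∉ I) : ∃ j, j ∉ I ∧ Sp b I (τ (b i) - b j) := by
  classical
  have h1 : SS b I (τ (b i)) = 1 := by
    refine le_antisymm ?_ (one_le_SS b hp hτp hτ hN hi)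
    have h := SS_iter b hp hτp hτ hN (p - 1) (τ (b i)) (nn_map b hτ hN (nn_basis b i))
    rw [← Function.iterate_succ_apply, Nat.succ_eq_add_one, Nat.sub_add_cancel hp, hτp,
      SS_basis b hi] at h
    exact h
  have hnn : ∀ j ∈ (Finset.univ : Finset (Fin n)),
      0 ≤ (if j ∈ I then 0 else b.repr (τ (b i)) j) := by
    intro j _
    split_ifs with hj
    · exact le_rfl
    · exact hN i hi j hj
  have h2 : ∃ j, (if j ∈ I then 0 else b.repr (τ (b i)) j) ≠ 0 := by
    by_contra hcon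
    push Not at hcon
    have : SS b I (τ (b i)) = 0 := Finset.sum_eq_zero fun j _ => hcon j
    omega
  obtain ⟨j, hj⟩ := h2
  have hjI : j ∉ I := by
    intro h
    rw [if_pos h] at hj
    exact hj rfl
  refine ⟨j, hjI, ?_⟩
  have h3 : 1 ≤ (if j ∈ I then 0 else b.repr (τ (b i)) j) := by
    have := hnn j (Finset.mem_univ _)
    omega
  have h4 : SS b I (τ (b i)) = (if j ∈ I then 0 else b.repr (τ (b i)) j) +
      ∑ k ∈ Finset.univ.erase j, (if k ∈ I then 0 else b.repr (τ (b i)) k) := by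
    exact (Finset.add_sum_erase Finset.univ
      (fun k => if k ∈ I then (0 : ℤ) else b.repr (τ (b i)) k) (Finset.mem_univ j)).symm
  have h5 : 0 ≤ ∑ k ∈ Finset.univ.erase j, (if k ∈ I then 0 else b.repr (τ (b i)) k) :=
    Finset.sum_nonneg fun k _ => hnn k (Finset.mem_univ _)
  have h6 : ∑ k ∈ Finset.univ.erase j, (if k ∈ I then 0 else b.repr (τ (b i)) k) = 0 := by omega
  have h7 : (if j ∈ I then 0 else b.repr (τ (b i)) j) = 1 := by omega
  rw [Finset.sum_eq_zero_iff_of_nonneg (fun k _ => hnn k (Finset.mem_univ _))] at h6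
  intro k hk
  rw [map_sub, Finsupp.sub_apply, Basis.repr_self, Finsupp.single_apply]
  by_cases hkj : j = k
  · subst hkj
    rw [if_neg hjI] at h7
    simp [h7]
  · have := h6 k (Finset.mem_erase.2 ⟨Ne.symm hkj, Finset.mem_univ _⟩)
    rw [if_neg hk] at this
    simp [this, hkj]

/-- the situation after the choice of the permutation `φ` -/
structure Sit (b : Basis (Fin n) ℤ Λ) (I : Set (Fin n)) (τ : Λ →+ Λ) (p : ℕ)
    (φ : Fin n → Fin n) : Prop where
  pr : p.Prime
  tp : ∀ a, τ^[p] a = a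
  st : ∀ a, Sp b I a → Sp b I (τ a)
  out : ∀ i, i ∉ I → φ i ∉ I
  ph : ∀ i, i ∉ I → Sp b I (τ (b i) - b (φ i))

variable {p : ℕ} {φ : Fin n → Fin n}

lemma Sit.out_iter (h : Sit b I τ p φ) (k : ℕ) : ∀ i, i ∉ I → φ^[k] i ∉ I := by
  induction k with
  | zero => intro i hi; simpa using hi
  | succ k ih =>
    intro i hi
    rw [Function.iterate_succ_apply]
    exact ih _ (h.out i hi)

lemma Sit.ph_iter (h : Sit b I τ p φ) (k : ℕ) :
    ∀ i, i ∉ I → Sp b I (τ^[k] (b i) - b (φ^[k] i)) := by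
  induction k with
  | zero => intro i hi; simpa using sp_zero b
  | succ k ih =>
    intro i hi
    rw [Function.iterate_succ_apply, Function.iterate_succ_apply]
    have h1 := ih _ (h.out i hi)
    have h2 := sp_iter b h.st k _ (h.ph i hi)
    rw [iterate_map_sub] at h2
    have := sp_add b h1 h2
    convert this using 1
    abel

lemma Sit.phi_p (h : Sit b I τ p φ) {i : Fin n} (hi : i ∉ I) : φ^[p] i = i := by
  have h1 := h.ph_iter b p i hi
  rw [h.tp] at h1
  by_contra hne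
  have h2 := h1 i hi
  rw [map_sub, Finsupp.sub_apply, Basis.repr_self, Basis.repr_self, Finsupp.single_apply,
    Finsupp.single_apply, if_pos rfl, if_neg hne] at h2
  norm_num at h2

/-- iterates modulo `p` -/
lemma Sit.phi_mod (h : Sit b I τ p φ) {i : Fin n} (hi : i ∉ I) (k : ℕ) :
    φ^[k] i = φ^[k % p] i := by
  exact (Function.IsPeriodicPt.iterate_mod_apply (h.phi_p b hi) k).symm

lemma Sit.fix_of (h : Sit b I τ p φ) {i : Fin n} (hi : i ∉ I) {k : ℕ} (hk0 : 0 < k) (hkp : k < p)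
    (hk : φ^[k] i = i) : φ i = i := by
  have h1 : Function.IsPeriodicPt φ k i := hk
  have h2 : Function.IsPeriodicPt φ p i := h.phi_p b hi
  have h3 := h1.gcd h2
  have h4 : Nat.gcd k p = 1 := by
    rw [Nat.gcd_comm]
    exact (h.pr.coprime_iff_not_dvd).2 (Nat.not_dvd_of_pos_of_lt hk0 hkp)
  rw [h4] at h3
  simpa [Function.IsPeriodicPt, Function.IsFixedPt] using h3

/-- minimal in its orbit -/
def Mi (φ : Fin n → Fin n) (i : Fin n) : Prop := ∀ k, i ≤ φ^[k] i

lemma Sit.mi_unique (h : Sit b I τ p φ) {i j : Fin n} (hi : i ∉ I) (hMi : Mi φ i)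
    (hMj : Mi φ j) {k : ℕ} (hk : φ^[k] i = j) : i = j := by
  refine le_antisymm (hk ▸ hMi k) ?_
  -- j goes back to i
  have h1 : φ^[(p - k % p)] j = i := by
    rw [← hk, h.phi_mod b hi k, ← Function.iterate_add_apply,
      Nat.sub_add_cancel (Nat.mod_lt k h.pr.pos).le, h.phi_p b hi]
  exact h1 ▸ hMj _

lemma Sit.exists_mi (h : Sit b I τ p φ) {i : Fin n} (hi : i ∉ I) :
    ∃ r, r ∉ I ∧ Mi φ r ∧ ∃ k, k < p ∧ φ^[k] r = i := by
  classical
  obtain ⟨r, hr, hmin⟩ := Finset.exists_min_image (Finset.range p)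
    (fun k => φ^[k] i) ⟨0, by simpa using h.pr.pos⟩
  have hrp : r < p := by simpa using hr
  refine ⟨φ^[r] i, h.out_iter b r i hi, ?_, ?_⟩
  · intro k
    rw [← Function.iterate_add_apply, h.phi_mod b hi (k + r)]
    exact hmin ((k + r) % p) (Finset.mem_range.2 (Nat.mod_lt _ h.pr.pos))
  · refine ⟨(p - r) % p, Nat.mod_lt _ h.pr.pos, ?_⟩
    rw [← h.phi_mod b (h.out_iter b r i hi), ← Function.iterate_add_apply,
      Nat.sub_add_cancel hrp.le, h.phi_p b hi]

end perm

section gen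

variable {Λ : Type} [AddCommGroup Λ] {n : ℕ} (b : Basis (Fin n) ℤ Λ) {I : Set (Fin n)}
  {τ : Λ →+ Λ} {p : ℕ} {φ : Fin n → Fin n}

/-- the iterate as a homomorphism -/
def itH (τ : Λ →+ Λ) (k : ℕ) : Λ →+ Λ where
  toFun := τ^[k]
  map_zero' := iterate_map_zero τ k
  map_add' := iterate_map_add τ k

@[simp] lemma itH_apply (τ : Λ →+ Λ) (k : ℕ) (a : Λ) : itH τ k a = τ^[k] a := rfl

lemma Nm_add (a c : Λ) : Nm τ p (a + c) = Nm τ p a + Nm τ p c := by
  unfold Nm
  simp only [iterate_map_add, Finset.sum_add_distrib]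

lemma Nm_sub (a c : Λ) : Nm τ p (a - c) = Nm τ p a - Nm τ p c := by
  unfold Nm
  simp only [iterate_map_sub, Finset.sum_sub_distrib]

lemma Nm_zero : Nm τ p (0 : Λ) = 0 := by
  unfold Nm
  simp only [iterate_map_zero, Finset.sum_const_zero]

lemma Sit.Nm_tau (h : Sit b I τ p φ) (a : Λ) : Nm τ p (τ a) = Nm τ p a := by
  unfold Nm
  have h1 : ∀ k, τ^[k] (τ a) = τ^[k + 1] a := fun k => (Function.iterate_succ_apply _ _ _).symm
  simp_rw [h1]
  have h2 := Finset.sum_range_succ' (fun k => τ^[k] a) p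
  have h3 := Finset.sum_range_succ (fun k => τ^[k] a) p
  rw [h.tp] at h3
  rw [h2] at h3
  simpa using h3

lemma Sit.Nm_iter (h : Sit b I τ p φ) (k : ℕ) : ∀ a : Λ, Nm τ p (τ^[k] a) = Nm τ p a := by
  induction k with
  | zero => intro a; rfl
  | succ k ih =>
    intro a
    rw [Function.iterate_succ_apply, ih, h.Nm_tau b]

/-- reduced elements: only the coordinates of the representatives occur -/
def Rd (b : Basis (Fin n) ℤ Λ) (I : Set (Fin n)) (φ : Fin n → Fin n) (a : Λ) : Prop :=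
  ∀ i, i ∉ I → ¬ Mi φ i → b.repr a i = 0

lemma Sit.zero_of_rd (h : Sit b I τ p φ) {x : Λ} (hx : Rd b I φ x) (h0 : Nm τ p x = 0) :
    Sp b I x := by
  classical
  intro j hj
  by_cases hMj : Mi φ j
  swap
  · exact hx j hj hMj
  have h1 : b.repr (Nm τ p x) j = 0 := by rw [h0]; simp
  have h2 : ∀ k, b.repr (τ^[k] x) j = b.repr x j * (if φ^[k] j = j then 1 else 0) := by
    intro k
    have h3 := repr_map b (itH τ k) x j
    rw [itH_apply] at h3
    rw [h3, Finset.sum_eq_single j]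
    · have h4 := h.ph_iter b k j hj j hj
      rw [map_sub, Finsupp.sub_apply, Basis.repr_self, Finsupp.single_apply, sub_eq_zero] at h4
      rw [itH_apply, h4]
    · intro i _ hij
      by_cases hi : i ∈ I
      · have := sp_iter b h.st k _ (sp_basis b hi) j hj
        rw [itH_apply, this, mul_zero]
      by_cases hMi : Mi φ i
      · have h4 := h.ph_iter b k i hi j hj
        rw [map_sub, Finsupp.sub_apply, Basis.repr_self, Finsupp.single_apply, sub_eq_zero] at h4
        rw [itH_apply, h4, if_neg, mul_zero]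
        intro h5
        exact hij (h.mi_unique b hi hMi hMj h5)
      · rw [hx i hi hMi, zero_mul]
    · simp
  unfold Nm at h1
  rw [map_sum, Finsupp.finset_sum_apply] at h1
  simp_rw [h2] at h1
  rw [← Finset.mul_sum, mul_eq_zero] at h1
  rcases h1 with h1 | h1
  · exact h1
  · exfalso
    rw [Finset.sum_eq_zero_iff_of_nonneg] at h1
    · have := h1 0 (by simpa using h.pr.pos)
      simp at this
    · intro k _
      split_ifs <;> norm_num

variable {Rel : Λ → Λ → Prop}

/-- the hypotheses on the relation -/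
structure RR (b : Basis (Fin n) ℤ Λ) (I : Set (Fin n)) (τ : Λ →+ Λ) (p : ℕ)
    (φ : Fin n → Fin n) (Rel : Λ → Λ → Prop) : Prop where
  rfl' : ∀ a, Rel a a
  symm : ∀ a c, Rel a c → Rel c a
  trans : ∀ a c d, Rel a c → Rel c d → Rel a d
  add : ∀ a c d, NN b I a → NN b I c → NN b I d → Rel a c → Rel (a + d) (c + d)
  orb : ∀ j, j ∉ I → Mi φ j → ∀ k, k < p → Rel (τ^[k] (b j)) (b j)
  nm : ∀ a, Sp b I a → Nm τ p a = 0 → Rel a 0

/-- `a` can be reduced -/
def QQ (b : Basis (Fin n) ℤ Λ) (I : Set (Fin n)) (τ : Λ →+ Λ) (p : ℕ)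
    (φ : Fin n → Fin n) (Rel : Λ → Λ → Prop) (a : Λ) : Prop :=
  NN b I a ∧ ∃ a', Rd b I φ a' ∧ NN b I a' ∧ Rel a a' ∧ Nm τ p (a - a') = 0

lemma QQ_add (hR : RR b I τ p φ Rel) {a c : Λ} (ha : QQ b I τ p φ Rel a)
    (hc : QQ b I τ p φ Rel c) : QQ b I τ p φ Rel (a + c) := by
  obtain ⟨hna, a', ha1, ha2, ha3, ha4⟩ := ha
  obtain ⟨hnc, c', hc1, hc2, hc3, hc4⟩ := hc
  refine ⟨nn_add b hna hnc, a' + c', ?_, nn_add b ha2 hc2, ?_, ?_⟩
  · intro i hi hm
    simp [ha1 i hi hm, hc1 i hi hm]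
  · refine hR.trans _ _ _ (hR.add a a' c hna ha2 hnc ha3) ?_
    rw [add_comm a' c, add_comm a' c']
    exact hR.add c c' a' hnc hc2 ha2 hc3
  · have : a + c - (a' + c') = (a - a') + (c - c') := by abel
    rw [this, Nm_add, ha4, hc4, add_zero]

lemma QQ_sp (hR : RR b I τ p φ Rel) {a : Λ} (ha : Sp b I a) : QQ b I τ p φ Rel a :=
  ⟨nn_of_sp b ha, a, fun i hi _ => ha i hi, nn_of_sp b ha, hR.rfl' a, by rw [sub_self, Nm_zero]⟩

lemma QQ_basis (h : Sit b I τ p φ) (hR : RR b I τ p φ Rel) {i : Fin n} (hi : i ∉ I) :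
    QQ b I τ p φ Rel (b i) := by
  obtain ⟨r, hr, hMr, k, hk, hki⟩ := h.exists_mi b hi
  have h1 := h.ph_iter b k r hr
  rw [hki] at h1
  refine ⟨nn_basis b i, b r + (-(τ^[k] (b r) - b i)), ?_, ?_, ?_, ?_⟩
  · intro j hj hm
    have h2 := sp_neg b h1 j hj
    rw [map_add, Finsupp.add_apply, h2, add_zero, Basis.repr_self, Finsupp.single_apply, if_neg]
    rintro rfl
    exact hm hMr
  · exact nn_add b (nn_basis b r) (nn_of_sp b (sp_neg b h1))
  · have h2 := hR.add _ _ (-(τ^[k] (b r) - b i)) ?_ (nn_basis b r) (nn_of_sp b (sp_neg b h1))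
      (hR.orb r hr hMr k hk)
    · have h3 : τ^[k] (b r) + -(τ^[k] (b r) - b i) = b i := by abel
      rwa [h3] at h2
    · have h3 : τ^[k] (b r) = (τ^[k] (b r) - b i) + b i := by abel
      rw [h3]
      exact nn_add b (nn_of_sp b h1) (nn_basis b i)
  · have h3 : b i - (b r + (-(τ^[k] (b r) - b i))) = τ^[k] (b r) - b r := by abel
    rw [h3, Nm_sub, h.Nm_iter b, sub_self]

lemma QQ_nsmul (hR : RR b I τ p φ Rel) {a : Λ} (ha : QQ b I τ p φ Rel a) (m : ℕ) :
    QQ b I τ p φ Rel (m • a) := by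
  induction m with
  | zero => rw [zero_smul]; exact QQ_sp b hR (sp_zero b)
  | succ m ih => rw [succ_nsmul]; exact QQ_add b hR ih ha

lemma QQ_nn (h : Sit b I τ p φ) (hR : RR b I τ p φ Rel) {a : Λ} (ha : NN b I a) :
    QQ b I τ p φ Rel a := by
  classical
  have key : ∀ s : Finset (Fin n), QQ b I τ p φ Rel (∑ i ∈ s, b.repr a i • b i) := by
    intro s
    induction s using Finset.induction_on with
    | empty => rw [Finset.sum_empty]; exact QQ_sp b hR (sp_zero b)
    | insert i s his ih =>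
      rw [Finset.sum_insert his]
      refine QQ_add b hR ?_ ih
      by_cases hi : i ∈ I
      · exact QQ_sp b hR (sp_zsmul b (sp_basis b hi) _)
      · obtain ⟨m, hm⟩ := Int.eq_ofNat_of_zero_le (ha i hi)
        rw [hm]
        have := QQ_nsmul b hR (QQ_basis b h hR hi) m
        simpa using this
  have := key Finset.univ
  rwa [b.sum_repr a] at this

lemma rel_of_Nm (h : Sit b I τ p φ) (hR : RR b I τ p φ Rel) {a c : Λ} (ha : NN b I a)
    (hc : NN b I c) (hac : Nm τ p (a - c) = 0) : Rel a c := by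
  obtain ⟨-, a', ha1, ha2, ha3, ha4⟩ := QQ_nn b h hR ha
  obtain ⟨-, c', hc1, hc2, hc3, hc4⟩ := QQ_nn b h hR hc
  refine hR.trans _ _ _ ha3 (hR.trans _ _ _ ?_ (hR.symm _ _ hc3))
  have h1 : Nm τ p (a' - c') = 0 := by
    have : a' - c' = (a - c) - (a - a') + (c - c') := by abel
    rw [this, Nm_add, Nm_sub, hac, ha4, hc4]; simp
  have h2 : Sp b I (a' - c') := by
    refine h.zero_of_rd b ?_ h1
    intro i hi hm
    simp [ha1 i hi hm, hc1 i hi hm]
  have h3 := hR.add (a' - c') 0 c' (nn_of_sp b h2) (nn_of_sp b (sp_zero b)) hc2 (hR.nm _ h2 h1)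
  simpa using h3

end gen

theorem t_ORB : S_ORB := by
  classical
  intro Λ _ n b τ p hp hτp I hI hN
  have hex : ∀ i, ∃ j, i ∉ I → j ∉ I ∧ Sp b I (τ (b i) - b j) := by
    intro i
    by_cases hi : i ∈ I
    · exact ⟨i, fun h => absurd hi h⟩
    · obtain ⟨j, hj⟩ := exists_phi b hp.pos hτp hI hN i hi
      exact ⟨j, fun _ => hj⟩
  choose φ hφ using hex
  have h : Sit b I τ p φ := ⟨hp, hτp, hI, fun i hi => (hφ i hi).1, fun i hi => (hφ i hi).2⟩
  let R : Finset (Fin n) := Finset.univ.filter fun i => i ∉ I ∧ Mi φ i ∧ φ i ≠ i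
  let e : Fin R.card ≃ R := (R.equivFin).symm
  have hR : ∀ j, ((e j : Fin n) ∉ I ∧ Mi φ (e j : Fin n) ∧ φ (e j : Fin n) ≠ e j) := by
    intro j
    exact (Finset.mem_filter.1 (e j).2).2
  refine ⟨R.card, fun j k => φ^[k] (e j : Fin n), ?_, ?_, ?_, ?_⟩
  · intro j k _
    exact h.out_iter b k _ (hR j).1
  · have aux : ∀ j j' k k', k < p → k' < p → k ≤ k' →
        φ^[k] (e j : Fin n) = φ^[k'] (e j' : Fin n) → j = j' ∧ k = k' := by
      intro j j' k k' hk hk' hkk heq
      -- go from `e j'` to `e j`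
      have h1 : φ^[p - k + k'] (e j' : Fin n) = e j := by
        rw [Function.iterate_add_apply, ← heq, ← Function.iterate_add_apply,
          Nat.sub_add_cancel hk.le, h.phi_p b (hR j).1]
      have h2 := h.mi_unique b (hR j').1 (hR j').2.1 (hR j).2.1 h1
      have h3 : j = j' := e.injective (Subtype.ext h2.symm)
      subst h3
      refine ⟨rfl, ?_⟩
      by_contra hne
      have hlt : k < k' := lt_of_le_of_ne hkk hne
      have h4 : φ^[k' - k] (e j : Fin n) = e j := by
        have h5 : p - k + k' = (k' - k) + p := by omega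
        rw [h5, Function.iterate_add_apply, h.phi_p b (hR j).1] at h1
        exact h1
      exact (hR j).2.2 (h.fix_of b (hR j).1 (by omega) (by omega) h4)
    intro j k j' k' hk hk' heq
    rcases le_total k k' with hkk | hkk
    · exact aux j j' k k' hk hk' hkk heq
    · obtain ⟨h1, h2⟩ := aux j' j k' k hk' hk hkk heq.symm
      exact ⟨h1.symm, h2.symm⟩
  · intro j k _
    exact h.ph_iter b k _ (hR j).1
  · intro Rel h1 h2 h3 h4 h5 h6 a c ha hc hac
    refine rel_of_Nm b h (Rel := Rel) ⟨h1, h2, h3, h4, ?_, h6⟩ ha hc hac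
    intro j hj hMj k hk
    by_cases hfix : φ j = j
    · -- fixed point: the difference is in the span of `I` and in the kernel of the norm
      have hfk : φ^[k] j = j := Function.iterate_fixed hfix k
      have h7 := h.ph_iter b k j hj
      rw [hfk] at h7
      have h8 := h6 _ h7 (by rw [Nm_sub, h.Nm_iter b, sub_self])
      have h9 := h4 _ 0 (b j) (nn_of_sp b h7) (nn_of_sp b (sp_zero b)) (nn_basis b j) h8
      simpa using h9
    · have hmem : j ∈ R := by simp [R, hj, hMj, hfix]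
      have h7 := h5 (e.symm ⟨j, hmem⟩) k hk
      simpa using h7

end Pool.Agent.K3h44.Orb
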